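import Mathlib

set_option autoImplicit false

/-!
# Unit-perimeter triangles in the plane: `u(n) ≥ c n^(4/3) log log n`

The grid `{(x / (8 m²), y / (2 m)) : 0 ≤ x < 12 m², 0 ≤ y < 2 m}` spans, for every pair of positive
integers `(a, b)` with `q = a² + b² ∣ m` and every `1 ≤ l < 2 m / q`, a family of pairwise
translated triangles of perimeter `1` with horizontal base: the two slanted sides are
`a²/(2q) + b² q t²/8` and `b²/(2q) + a² q t²/8` with `t = l / m`, the base is `1/2 - q² t²/8`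
and the height is `a b t / 2`.  The case `a = b = 1` gives `u(n) ≥ n^(4/3)/1296`; summing over all
coprime pairs `(a, b)` below `Z` (with `m` a multiple of `(2 Z²)!`) gives the extra factor
`log log n`.
-/

open Finset

namespace Pool.Agent.Results.MP_75315a_co.FourThirds

/-- Points of the Euclidean plane. -/
abbrev Pt := EuclideanSpace ℝ (Fin 2)

lemma dist_pt (a b c d : ℝ) : dist (!₂[a, b] : Pt) !₂[c, d] = Real.sqrt ((a - c) ^ 2 + (b - d) ^ 2) := by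
  rw [EuclideanSpace.dist_eq]
  simp [Fin.sum_univ_two, Real.dist_eq, sq_abs]

/-- `T` is the vertex set of a non-degenerate triangle of perimeter `1`. -/
def IsUnitPerimeterTriangle (T : Finset Pt) : Prop :=
  ∃ a b c : Pt, T = {a, b, c} ∧ ¬ Collinear ℝ ({a, b, c} : Set Pt) ∧
    dist a b + dist b c + dist c a = 1

open Classical in
/-- The number of (unordered, non-degenerate) triangles of perimeter `1` spanned by `P`. -/
noncomputable def numTriangles (P : Finset Pt) : ℕ :=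
  (P.powerset.filter IsUnitPerimeterTriangle).card

/-- `u(n)`: the maximum, over the `n`-point subsets of the plane, of the number of spanned
triangles of perimeter `1`. -/
noncomputable def u (n : ℕ) : ℕ :=
  sSup {k | ∃ P : Finset Pt, P.card = n ∧ numTriangles P = k}

lemma not_coll {a b c d h : ℝ} (hc : 0 < c) (hh : 0 < h) :
    ¬ Collinear ℝ ({!₂[a, b], !₂[a + c, b], !₂[a + d, b + h]} : Set Pt) := by
  rw [collinear_iff_of_mem (p₀ := (!₂[a, b] : Pt)) (by simp)]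
  rintro ⟨v, hv⟩
  obtain ⟨r, hr⟩ := hv !₂[a + c, b] (by simp)
  obtain ⟨s, hs⟩ := hv !₂[a + d, b + h] (by simp)
  have h1 : a + c = r * v 0 + a := by
    have := congrArg (fun p : Pt => p 0) hr
    simpa using this
  have h2 : b = r * v 1 + b := by
    have := congrArg (fun p : Pt => p 1) hr
    simpa using this
  have h3 : b + h = s * v 1 + b := by
    have := congrArg (fun p : Pt => p 1) hs
    simpa using this
  have h4 : r * v 1 = 0 := by linarith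
  have h5 : r * v 0 = c := by linarith
  rcases mul_eq_zero.mp h4 with h | h
  · rw [h] at h5; simp at h5; linarith
  · rw [h] at h3; simp at h3; linarith

/-- real-parameter form of the perimeter identity -/
lemma perim (x y a b t q : ℝ) (ha : 0 < a) (hb : 0 < b) (ht : 0 < t) (hq : q = a ^ 2 + b ^ 2)
    (hqt : q * t < 2) :
    dist (!₂[x, y] : Pt) !₂[x + (1 / 2 - q ^ 2 * t ^ 2 / 8), y] +
      dist (!₂[x + (1 / 2 - q ^ 2 * t ^ 2 / 8), y] : Pt)
        !₂[x + (a ^ 2 / (2 * q) - b ^ 2 * q * t ^ 2 / 8), y + a * b * t / 2] +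
      dist (!₂[x + (a ^ 2 / (2 * q) - b ^ 2 * q * t ^ 2 / 8), y + a * b * t / 2] : Pt) !₂[x, y]
      = 1 := by
  have hq0 : 0 < q := by rw [hq]; positivity
  have e1 : dist (!₂[x, y] : Pt) !₂[x + (1 / 2 - q ^ 2 * t ^ 2 / 8), y]
      = 1 / 2 - q ^ 2 * t ^ 2 / 8 := by
    rw [dist_pt]
    have : (x - (x + (1 / 2 - q ^ 2 * t ^ 2 / 8))) ^ 2 + (y - y) ^ 2
        = (1 / 2 - q ^ 2 * t ^ 2 / 8) ^ 2 := by ring
    rw [this, Real.sqrt_sq]
    have : (q * t) ^ 2 < 4 := by nlinarith [mul_pos hq0 ht]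
    nlinarith
  have e2 : dist (!₂[x + (1 / 2 - q ^ 2 * t ^ 2 / 8), y] : Pt)
        !₂[x + (a ^ 2 / (2 * q) - b ^ 2 * q * t ^ 2 / 8), y + a * b * t / 2]
      = b ^ 2 / (2 * q) + a ^ 2 * q * t ^ 2 / 8 := by
    rw [dist_pt]
    have h1 : (1 : ℝ) / 2 = a ^ 2 / (2 * q) + b ^ 2 / (2 * q) := by
      rw [hq]; field_simp
    have h2 : (x + (1 / 2 - q ^ 2 * t ^ 2 / 8) -
        (x + (a ^ 2 / (2 * q) - b ^ 2 * q * t ^ 2 / 8)))
        = b ^ 2 / (2 * q) - a ^ 2 * q * t ^ 2 / 8 := by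
      rw [h1]
      have : q ^ 2 = a ^ 2 * q + b ^ 2 * q := by rw [hq]; ring
      rw [this]; ring
    rw [h2]
    have h3 : (b ^ 2 / (2 * q) - a ^ 2 * q * t ^ 2 / 8) ^ 2 + (y - (y + a * b * t / 2)) ^ 2
        = (b ^ 2 / (2 * q) + a ^ 2 * q * t ^ 2 / 8) ^ 2 := by
      field_simp
      ring
    rw [h3, Real.sqrt_sq (by positivity)]
  have e3 : dist (!₂[x + (a ^ 2 / (2 * q) - b ^ 2 * q * t ^ 2 / 8), y + a * b * t / 2] : Pt)
      !₂[x, y] = a ^ 2 / (2 * q) + b ^ 2 * q * t ^ 2 / 8 := by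
    rw [dist_pt]
    have h3 : (x + (a ^ 2 / (2 * q) - b ^ 2 * q * t ^ 2 / 8) - x) ^ 2 +
        (y + a * b * t / 2 - y) ^ 2
        = (a ^ 2 / (2 * q) + b ^ 2 * q * t ^ 2 / 8) ^ 2 := by
      field_simp
      ring
    rw [h3, Real.sqrt_sq (by positivity)]
  rw [e1, e2, e3]
  have h1 : (1 : ℝ) / 2 = a ^ 2 / (2 * q) + b ^ 2 / (2 * q) := by
    rw [hq]; field_simp
  have : q ^ 2 = a ^ 2 * q + b ^ 2 * q := by rw [hq]; ring
  rw [this]
  linarith

/-- integer grid points -/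
noncomputable def G (m : ℕ) (x y : ℤ) : Pt := !₂[(x : ℝ) / (8 * m ^ 2), (y : ℝ) / (2 * m)]

def W (m a b l : ℕ) : ℤ := 4 * m ^ 2 - ((a ^ 2 + b ^ 2) * l) ^ 2
def U (m a b l : ℕ) : ℤ :=
  4 * m * (m / (a ^ 2 + b ^ 2) : ℕ) * a ^ 2 - b ^ 2 * l ^ 2 * (a ^ 2 + b ^ 2)

noncomputable def tri (m : ℕ) (i j : ℤ) (a b l : ℕ) : Finset Pt :=
  {G m i j, G m (i + W m a b l) j, G m (i + U m a b l) (j + a * b * l)}

lemma G_inj (m : ℕ) (hm : 0 < m) {x y x' y' : ℤ} (h : G m x y = G m x' y') :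
    x = x' ∧ y = y' := by
  have hm' : (0 : ℝ) < m := by exact_mod_cast hm
  have h0 : (x : ℝ) / (8 * m ^ 2) = (x' : ℝ) / (8 * m ^ 2) := by
    have := congrArg (fun p : Pt => p 0) h
    simpa [G] using this
  have h1 : (y : ℝ) / (2 * m) = (y' : ℝ) / (2 * m) := by
    have := congrArg (fun p : Pt => p 1) h
    simpa [G] using this
  constructor
  · have := (div_left_inj' (by positivity : (8 * (m : ℝ) ^ 2) ≠ 0)).mp h0
    exact_mod_cast this
  · have := (div_left_inj' (by positivity : (2 * (m : ℝ)) ≠ 0)).mp h1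
    exact_mod_cast this

lemma W_pos (m a b l : ℕ) (hl : (a ^ 2 + b ^ 2) * l < 2 * m) : 0 < W m a b l := by
  unfold W
  have h : (((a ^ 2 + b ^ 2) * l : ℕ) : ℤ) < 2 * m := by exact_mod_cast hl
  have h0 : (0 : ℤ) ≤ (((a ^ 2 + b ^ 2) * l : ℕ) : ℤ) := by positivity
  push_cast at h h0
  nlinarith

lemma W_le (m a b l : ℕ) : W m a b l ≤ 4 * m ^ 2 := by
  unfold W
  nlinarith [sq_nonneg ((((a : ℤ) ^ 2 + b ^ 2) * l))]

lemma U_le (m a b l : ℕ) (hd : (a ^ 2 + b ^ 2) ∣ m) : U m a b l ≤ 4 * m ^ 2 := by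
  obtain ⟨c, hc⟩ := hd
  unfold U
  rcases Nat.eq_zero_or_pos (a ^ 2 + b ^ 2) with h0 | h0
  · rw [h0] at hc
    simp [hc]
    positivity
  · have h1 : m / (a ^ 2 + b ^ 2) = c := by rw [hc]; exact Nat.mul_div_cancel_left c h0
    rw [h1, hc]
    push_cast
    have : (0 : ℤ) ≤ (b : ℤ) ^ 2 * l ^ 2 * (a ^ 2 + b ^ 2) := by positivity
    have h2 : (0 : ℤ) ≤ 4 * (((a : ℤ) ^ 2 + b ^ 2) * c) * c * b ^ 2 := by positivity
    nlinarith

lemma U_ge (m a b l : ℕ) (hl : (a ^ 2 + b ^ 2) * l < 2 * m) : -(4 * (m : ℤ) ^ 2) ≤ U m a b l := by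
  unfold U
  have h : (((a ^ 2 + b ^ 2) * l : ℕ) : ℤ) < 2 * m := by exact_mod_cast hl
  have h0 : (0 : ℤ) ≤ (((a ^ 2 + b ^ 2) * l : ℕ) : ℤ) := by positivity
  push_cast at h h0
  have h1 : (0 : ℤ) ≤ 4 * (m : ℤ) * ((m / (a ^ 2 + b ^ 2) : ℕ) : ℤ) * a ^ 2 := by positivity
  have h2 : (((a : ℤ) ^ 2 + b ^ 2) * l) ^ 2 ≤ (2 * m) ^ 2 := by
    apply pow_le_pow_left₀ h0 h.le
  have h3 : (b : ℤ) ^ 2 * l ^ 2 * (a ^ 2 + b ^ 2) ≤ (((a : ℤ) ^ 2 + b ^ 2) * l) ^ 2 := by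
    have : (0 : ℤ) ≤ (a : ℤ) ^ 2 * l ^ 2 * (a ^ 2 + b ^ 2) := by positivity
    nlinarith
  nlinarith

lemma k_lt (m a b l : ℕ) (hl : (a ^ 2 + b ^ 2) * l < 2 * m) : a * b * l < m := by
  have h1 : 2 * (a * b) ≤ a ^ 2 + b ^ 2 := by
    have := two_mul_le_add_sq a b
    nlinarith
  have h2 : 2 * (a * b * l) ≤ (a ^ 2 + b ^ 2) * l := by
    calc 2 * (a * b * l) = (2 * (a * b)) * l := by ring
      _ ≤ _ := Nat.mul_le_mul_right _ h1
  omega

lemma tri_isUnit (m : ℕ) (i j : ℤ) (a b l : ℕ) (ha : 0 < a) (hb : 0 < b) (hl0 : 0 < l)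
    (hd : (a ^ 2 + b ^ 2) ∣ m) (hl : (a ^ 2 + b ^ 2) * l < 2 * m) :
    IsUnitPerimeterTriangle (tri m i j a b l) := by
  have hm : 0 < m := by
    rcases Nat.eq_zero_or_pos m with h | h
    · subst h; omega
    · exact h
  have hmR : (0 : ℝ) < m := by exact_mod_cast hm
  have haR : (0 : ℝ) < a := by exact_mod_cast ha
  have hbR : (0 : ℝ) < b := by exact_mod_cast hb
  have hlR : (0 : ℝ) < l := by exact_mod_cast hl0
  set q : ℝ := (a : ℝ) ^ 2 + b ^ 2 with hq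
  have hq0 : 0 < q := by positivity
  set t : ℝ := (l : ℝ) / m with ht
  have ht0 : 0 < t := by positivity
  have hqt : q * t < 2 := by
    rw [ht, ← mul_div_assoc, div_lt_iff₀ hmR]
    have : (((a ^ 2 + b ^ 2) * l : ℕ) : ℝ) < 2 * m := by exact_mod_cast hl
    push_cast at this
    exact this
  have hdivR : ((m / (a ^ 2 + b ^ 2) : ℕ) : ℝ) = m / q := by
    rw [Nat.cast_div hd]
    · push_cast; rfl
    · push_cast; exact hq0.ne'
  have eW : ((i + W m a b l : ℤ) : ℝ) / (8 * m ^ 2)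
      = (i : ℝ) / (8 * m ^ 2) + (1 / 2 - q ^ 2 * t ^ 2 / 8) := by
    unfold W
    push_cast
    rw [ht, ← hq]
    field_simp
    ring
  have eU : ((i + U m a b l : ℤ) : ℝ) / (8 * m ^ 2)
      = (i : ℝ) / (8 * m ^ 2) + ((a : ℝ) ^ 2 / (2 * q) - (b : ℝ) ^ 2 * q * t ^ 2 / 8) := by
    unfold U
    generalize m / (a ^ 2 + b ^ 2) = c at hdivR ⊢
    push_cast
    rw [hdivR, ht, ← hq]
    field_simp
    ring
  have eY : ((j + a * b * l : ℤ) : ℝ) / (2 * m) = (j : ℝ) / (2 * m) + (a : ℝ) * b * t / 2 := by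
    push_cast
    rw [ht]
    field_simp
  refine ⟨G m i j, G m (i + W m a b l) j, G m (i + U m a b l) (j + a * b * l), rfl, ?_, ?_⟩
  · unfold G
    rw [eW, eU, eY]
    apply not_coll
    · have : (q * t) ^ 2 < 4 := by nlinarith [mul_pos hq0 ht0]
      nlinarith
    · positivity
  · unfold G
    rw [eW, eU, eY]
    exact perim _ _ a b t q haR hbR ht0 hq hqt


lemma int_tri_inj {i j W U k i' j' W' U' k' : ℤ} (hW : 0 < W) (hk : 0 < k) (hW' : 0 < W')
    (hk' : 0 < k')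
    (h : ({(i, j), (i + W, j), (i + U, j + k)} : Finset (ℤ × ℤ)) =
      {(i', j'), (i' + W', j'), (i' + U', j' + k')}) :
    i = i' ∧ j = j' ∧ W = W' ∧ U = U' ∧ k = k' := by
  have key : ∀ f : ℤ × ℤ → ℤ, f (i, j) + (f (i + W, j) + f (i + U, j + k)) =
      f (i', j') + (f (i' + W', j') + f (i' + U', j' + k')) := by
    intro f
    have h1 := congrArg (fun s => ∑ p ∈ s, f p) h
    beta_reduce at h1
    rw [Finset.sum_insert, Finset.sum_insert, Finset.sum_singleton, Finset.sum_insert,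
      Finset.sum_insert, Finset.sum_singleton] at h1
    · exact h1
    · simp; omega
    · simp; omega
    · simp; omega
    · simp; omega
  have hy := key (fun p => p.2)
  have hyy := key (fun p => p.2 ^ 2)
  have hx := key (fun p => p.1)
  have hxx := key (fun p => p.1 ^ 2)
  have hxy := key (fun p => p.1 * p.2)
  simp only at hy hyy hx hxx hxy
  have h2k : 2 * k ^ 2 = 2 * k' ^ 2 := by
    linear_combination 3 * hyy - (3 * j + k + (3 * j' + k')) * hy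
  have hkk : k = k' := by nlinarith
  subst hkk
  have hj : j = j' := by omega
  subst hj
  have hU : k * (i + U) = k * (i' + U') := by
    linear_combination hxy - j * hx
  have hU1 : i + U = i' + U' := by
    exact mul_left_cancel₀ hk.ne' hU
  have h2W : 2 * i + W = 2 * i' + W' := by linarith
  have hWW : W ^ 2 = W' ^ 2 := by
    have h3 : (i + U) ^ 2 = (i' + U') ^ 2 := by rw [hU1]
    linear_combination 2 * hxx - 2 * h3 - (2 * i + W + (2 * i' + W')) * h2W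
  have hWe : W = W' := by nlinarith
  subst hWe
  have hi : i = i' := by omega
  subst hi
  exact ⟨rfl, rfl, rfl, by omega, rfl⟩

lemma tri_eq_image (m : ℕ) (i j : ℤ) (a b l : ℕ) :
    tri m i j a b l = ({(i, j), (i + W m a b l, j), (i + U m a b l, j + a * b * l)} :
      Finset (ℤ × ℤ)).image (fun p => G m p.1 p.2) := by
  simp [tri, Finset.image_insert]

lemma G_fun_inj (m : ℕ) (hm : 0 < m) :
    Function.Injective (fun p : ℤ × ℤ => G m p.1 p.2) := by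
  rintro ⟨x, y⟩ ⟨x', y'⟩ h
  obtain ⟨h1, h2⟩ := G_inj m hm h
  simp only at h1 h2
  rw [h1, h2]

lemma shape_inj (m a b l a' b' l' : ℕ) (hm : 0 < m) (ha : 0 < a) (hb : 0 < b) (hl : 0 < l)
    (ha' : 0 < a') (hb' : 0 < b') (hl' : 0 < l')
    (hd : (a ^ 2 + b ^ 2) ∣ m) (hd' : (a' ^ 2 + b' ^ 2) ∣ m)
    (hU : U m a b l = U m a' b' l') (hk : a * b * l = a' * b' * l') :
    a * b' = a' * b := by
  obtain ⟨c, hc⟩ := hd
  obtain ⟨c', hc'⟩ := hd'
  have hq : 0 < a ^ 2 + b ^ 2 := by positivity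
  have hq' : 0 < a' ^ 2 + b' ^ 2 := by positivity
  have h1 : m / (a ^ 2 + b ^ 2) = c := by rw [hc]; exact Nat.mul_div_cancel_left c hq
  have h1' : m / (a' ^ 2 + b' ^ 2) = c' := by rw [hc']; exact Nat.mul_div_cancel_left c' hq'
  unfold U at hU
  rw [h1, h1'] at hU
  have hc0 : 0 < c := by
    rcases Nat.eq_zero_or_pos c with h | h
    · subst h; simp at hc; omega
    · exact h
  have hc0' : 0 < c' := by
    rcases Nat.eq_zero_or_pos c' with h | h
    · subst h; simp at hc'; omega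
    · exact h
  have hmc : (m : ℤ) = (a ^ 2 + b ^ 2) * c := by exact_mod_cast hc
  have hmc' : (m : ℤ) = (a' ^ 2 + b' ^ 2) * c' := by exact_mod_cast hc'
  have hkZ : (a : ℤ) * b * l = a' * b' * l' := by exact_mod_cast hk
  have haZ : (0 : ℤ) < a := by exact_mod_cast ha
  have hbZ : (0 : ℤ) < b := by exact_mod_cast hb
  have hlZ : (0 : ℤ) < l := by exact_mod_cast hl
  have haZ' : (0 : ℤ) < a' := by exact_mod_cast ha'
  have hbZ' : (0 : ℤ) < b' := by exact_mod_cast hb'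
  have hlZ' : (0 : ℤ) < l' := by exact_mod_cast hl'
  have hcZ : (0 : ℤ) < c := by exact_mod_cast hc0
  have hcZ' : (0 : ℤ) < c' := by exact_mod_cast hc0'
  have hmZ : (0 : ℤ) < m := by exact_mod_cast hm
  -- the two products
  set α : ℤ := 4 * m * c * a ^ 2 with hα
  set β : ℤ := (b : ℤ) ^ 2 * l ^ 2 * (a ^ 2 + b ^ 2) with hβ
  set α' : ℤ := 4 * m * c' * a' ^ 2 with hα'
  set β' : ℤ := (b' : ℤ) ^ 2 * l' ^ 2 * (a' ^ 2 + b' ^ 2) with hβ'
  have hαp : 0 < α := by positivity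
  have hβp : 0 < β := by positivity
  have hαp' : 0 < α' := by positivity
  have hβp' : 0 < β' := by positivity
  have hprod : α * β = 4 * m ^ 2 * ((a : ℤ) * b * l) ^ 2 := by
    rw [hα, hβ]
    linear_combination (-(4 * (m : ℤ) * a ^ 2 * b ^ 2 * l ^ 2)) * hmc
  have hprod' : α' * β' = 4 * m ^ 2 * ((a' : ℤ) * b' * l') ^ 2 := by
    rw [hα', hβ']
    linear_combination (-(4 * (m : ℤ) * a' ^ 2 * b' ^ 2 * l' ^ 2)) * hmc'
  have hpp : α * β = α' * β' := by rw [hprod, hprod', hkZ]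
  have hdd : α - β = α' - β' := by linarith
  have hαα : α = α' := by
    have : (α - α') * (α' + β) = 0 := by
      have : β' = α' - α + β := by linarith
      rw [this] at hpp
      linear_combination hpp
    rcases mul_eq_zero.mp this with h | h
    · linarith
    · linarith
  have h4 : (c : ℤ) * a ^ 2 = c' * a' ^ 2 := by
    have : 4 * (m : ℤ) * (c * a ^ 2) = 4 * m * (c' * a' ^ 2) := by
      rw [hα, hα'] at hαα; linarith
    exact mul_left_cancel₀ (by positivity) this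
  have h5 : (a : ℤ) ^ 2 * (a' ^ 2 + b' ^ 2) = a' ^ 2 * (a ^ 2 + b ^ 2) := by
    have : (m : ℤ) * ((a : ℤ) ^ 2 * (a' ^ 2 + b' ^ 2)) = m * (a' ^ 2 * (a ^ 2 + b ^ 2)) := by
      have e1 : (m : ℤ) * ((a : ℤ) ^ 2 * (a' ^ 2 + b' ^ 2))
          = (c * a ^ 2) * ((a ^ 2 + b ^ 2) * (a' ^ 2 + b' ^ 2)) := by
        rw [hmc]; ring
      have e2 : (m : ℤ) * (a' ^ 2 * (a ^ 2 + b ^ 2))
          = (c' * a' ^ 2) * ((a ^ 2 + b ^ 2) * (a' ^ 2 + b' ^ 2)) := by
        rw [hmc']; ring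
      rw [e1, e2, h4]
    exact mul_left_cancel₀ hmZ.ne' this
  have h6 : ((a : ℤ) * b') ^ 2 = (a' * b) ^ 2 := by linear_combination h5
  have h7 : (a : ℤ) * b' = a' * b := by
    have p1 : (0 : ℤ) ≤ (a : ℤ) * b' := by positivity
    have p2 : (0 : ℤ) ≤ (a' : ℤ) * b := by positivity
    exact (sq_eq_sq₀ p1 p2).mp h6
  exact_mod_cast h7


lemma l_lt {m q l : ℕ} (hq : 0 < q) (h : l < 2 * m / q) : q * l < 2 * m := by
  have h1 : l + 1 ≤ 2 * m / q := h
  rw [Nat.le_div_iff_mul_le hq] at h1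
  nlinarith

theorem count (m : ℕ) (hm : 0 < m) (S : Finset (ℕ × ℕ))
    (hS : ∀ s ∈ S, 0 < s.1 ∧ 0 < s.2 ∧ (s.1 ^ 2 + s.2 ^ 2) ∣ m)
    (hinj : ∀ s ∈ S, ∀ t ∈ S, s.1 * t.2 = t.1 * s.2 → s = t) :
    ∃ P : Finset Pt, P.card = 24 * m ^ 3 ∧
      4 * m ^ 3 * ∑ s ∈ S, (2 * m / (s.1 ^ 2 + s.2 ^ 2) - 1) ≤ numTriangles P := by
  classical
  refine ⟨((Finset.Ico (0 : ℤ) (12 * m ^ 2)) ×ˢ (Finset.Ico (0 : ℤ) (2 * m))).image
    (fun p => G m p.1 p.2), ?_, ?_⟩
  · rw [Finset.card_image_of_injective _ (G_fun_inj m hm), Finset.card_product, Int.card_Ico,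
      Int.card_Ico]
    have h1 : (12 * (m : ℤ) ^ 2 - 0).toNat = 12 * m ^ 2 := by
      rw [sub_zero]; exact_mod_cast Int.toNat_natCast (12 * m ^ 2)
    have h2 : (2 * (m : ℤ) - 0).toNat = 2 * m := by
      rw [sub_zero]; exact_mod_cast Int.toNat_natCast (2 * m)
    rw [h1, h2]; ring
  · have hcard : (((Finset.Ico (4 * m ^ 2 : ℤ) (8 * m ^ 2)) ×ˢ (Finset.Ico (0 : ℤ) m)) ×ˢ
        (S.sigma (fun s => Finset.Ico 1 (2 * m / (s.1 ^ 2 + s.2 ^ 2))))).card =
        4 * m ^ 3 * ∑ s ∈ S, (2 * m / (s.1 ^ 2 + s.2 ^ 2) - 1) := by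
      rw [Finset.card_product, Finset.card_product, Int.card_Ico, Int.card_Ico,
        Finset.card_sigma]
      simp only [Nat.card_Ico]
      have h1 : (8 * (m : ℤ) ^ 2 - 4 * m ^ 2).toNat = 4 * m ^ 2 := by
        have : (8 * (m : ℤ) ^ 2 - 4 * m ^ 2) = ((4 * m ^ 2 : ℕ) : ℤ) := by push_cast; ring
        rw [this]; exact Int.toNat_natCast _
      have h2 : ((m : ℤ) - 0).toNat = m := by
        rw [sub_zero]; exact Int.toNat_natCast m
      rw [h1, h2]; ring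
    rw [← hcard]
    unfold numTriangles
    apply Finset.card_le_card_of_injOn
      (fun d => tri m d.1.1 d.1.2 d.2.1.1 d.2.1.2 d.2.2)
    · rintro ⟨⟨i, j⟩, ⟨⟨a, b⟩, l⟩⟩ hd
      rw [Finset.mem_coe, Finset.mem_product, Finset.mem_product, Finset.mem_Ico, Finset.mem_Ico,
        Finset.mem_sigma, Finset.mem_Ico] at hd
      simp only at hd
      obtain ⟨⟨⟨hi1, hi2⟩, hj1, hj2⟩, hs, hl1, hl2⟩ := hd
      obtain ⟨ha, hb, hdv⟩ := hS _ hs
      simp only at ha hb hdv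
      have hq : 0 < a ^ 2 + b ^ 2 := by positivity
      have hl : (a ^ 2 + b ^ 2) * l < 2 * m := l_lt hq hl2
      rw [Finset.mem_coe, Finset.mem_filter]
      refine ⟨?_, tri_isUnit m i j a b l ha hb hl1 hdv hl⟩
      rw [Finset.mem_powerset]
      show tri m i j a b l ⊆ _
      rw [tri_eq_image]
      apply Finset.image_subset_image
      have hW0 := W_pos m a b l hl
      have hW1 := W_le m a b l
      have hU0 := U_ge m a b l hl
      have hU1 := U_le m a b l hdv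
      have hk : ((a * b * l : ℕ) : ℤ) < m := by exact_mod_cast k_lt m a b l hl
      have hk0 : (0 : ℤ) ≤ ((a * b * l : ℕ) : ℤ) := by positivity
      push_cast at hk hk0
      have hm2 : (0 : ℤ) < m := by exact_mod_cast hm
      intro p hp
      simp only [Finset.mem_insert, Finset.mem_singleton] at hp
      rw [Finset.mem_product, Finset.mem_Ico, Finset.mem_Ico]
      rcases hp with rfl | rfl | rfl
      · refine ⟨⟨?_, ?_⟩, ?_, ?_⟩ <;> simp only <;> nlinarith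
      · refine ⟨⟨?_, ?_⟩, ?_, ?_⟩ <;> simp only <;> nlinarith
      · refine ⟨⟨?_, ?_⟩, ?_, ?_⟩ <;> simp only <;> nlinarith
    · rintro ⟨⟨i, j⟩, ⟨⟨a, b⟩, l⟩⟩ hd ⟨⟨i', j'⟩, ⟨⟨a', b'⟩, l'⟩⟩ hd' heq
      rw [Finset.mem_coe, Finset.mem_product, Finset.mem_product, Finset.mem_Ico, Finset.mem_Ico,
        Finset.mem_sigma, Finset.mem_Ico] at hd hd'
      simp only at hd hd' heq
      obtain ⟨⟨⟨hi1, hi2⟩, hj1, hj2⟩, hs, hl1, hl2⟩ := hd
      obtain ⟨⟨⟨hi1', hi2'⟩, hj1', hj2'⟩, hs', hl1', hl2'⟩ := hd'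
      obtain ⟨ha, hb, hdv⟩ := hS _ hs
      obtain ⟨ha', hb', hdv'⟩ := hS _ hs'
      simp only at ha hb hdv ha' hb' hdv'
      have hq : 0 < a ^ 2 + b ^ 2 := by positivity
      have hl : (a ^ 2 + b ^ 2) * l < 2 * m := l_lt hq hl2
      have hq' : 0 < a' ^ 2 + b' ^ 2 := by positivity
      have hl' : (a' ^ 2 + b' ^ 2) * l' < 2 * m := l_lt hq' hl2'
      rw [tri_eq_image, tri_eq_image] at heq
      have h1 := Finset.image_injective (G_fun_inj m hm) heq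
      have hk0 : (0 : ℤ) < (a : ℤ) * b * l := by
        have : 0 < a * b * l := by positivity
        exact_mod_cast this
      have hk0' : (0 : ℤ) < (a' : ℤ) * b' * l' := by
        have : 0 < a' * b' * l' := by positivity
        exact_mod_cast this
      obtain ⟨e1, e2, e3, e4, e5⟩ := int_tri_inj (W_pos m a b l hl) hk0 (W_pos m a' b' l' hl')
        hk0' h1
      have hkn : a * b * l = a' * b' * l' := by exact_mod_cast e5
      have hsh := shape_inj m a b l a' b' l' hm ha hb hl1 ha' hb' hl1' hdv hdv' e4 hkn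
      have hst := hinj _ hs _ hs' hsh
      rw [Prod.mk.injEq] at hst
      obtain ⟨rfl, rfl⟩ := hst
      have hll : l = l' := Nat.eq_of_mul_eq_mul_left (by positivity : 0 < a * b) hkn
      subst hll e1 e2
      rfl


lemma numTriangles_le (P : Finset Pt) : numTriangles P ≤ 2 ^ P.card := by
  classical
  unfold numTriangles
  calc _ ≤ P.powerset.card := Finset.card_filter_le _ _
    _ = _ := Finset.card_powerset P

lemma numTriangles_mono {P Q : Finset Pt} (h : P ⊆ Q) : numTriangles P ≤ numTriangles Q := by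
  classical
  unfold numTriangles
  apply Finset.card_le_card
  apply Finset.filter_subset_filter
  exact Finset.powerset_mono.mpr h

instance : Infinite Pt :=
  Infinite.of_injective (fun x : ℝ => (!₂[x, 0] : Pt)) (by
    intro x y h
    have := congrArg (fun p : Pt => p 0) h
    simpa using this)

lemma le_u (P : Finset Pt) (n : ℕ) (hn : P.card ≤ n) : numTriangles P ≤ u n := by
  obtain ⟨Q, hPQ, hQ⟩ := Infinite.exists_superset_card_eq P n hn
  have h1 : numTriangles Q ≤ u n := by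
    apply le_csSup
    · refine ⟨2 ^ n, ?_⟩
      rintro k ⟨P', hP', rfl⟩
      rw [← hP']
      exact numTriangles_le P'
    · exact ⟨Q, hQ, rfl⟩
  exact (numTriangles_mono hPQ).trans h1

lemma one_le_u (n : ℕ) (hn : 3 ≤ n) : 1 ≤ u n := by
  classical
  have h := tri_isUnit 2 0 0 1 1 1 (by norm_num) (by norm_num) (by norm_num) (by norm_num)
    (by norm_num)
  have hc : (tri 2 0 0 1 1 1).card ≤ n := by
    refine le_trans ?_ hn
    exact Finset.card_le_three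
  refine le_trans ?_ (le_u (tri 2 0 0 1 1 1) n hc)
  unfold numTriangles
  rw [Nat.one_le_iff_ne_zero, Finset.card_ne_zero]
  exact ⟨_, Finset.mem_filter.mpr ⟨Finset.mem_powerset_self _, h⟩⟩

lemma exists_t (C n : ℕ) (hC : 0 < C) (h : C ≤ n) :
    ∃ t, 1 ≤ t ∧ C * t ^ 3 ≤ n ∧ n < C * (t + 1) ^ 3 := by
  classical
  have hex : ∃ t, n < C * (t + 1) ^ 3 := by
    refine ⟨n, ?_⟩
    calc n < n + 1 := Nat.lt_succ_self n
      _ ≤ (n + 1) ^ 3 := Nat.le_self_pow (by norm_num) _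
      _ ≤ C * (n + 1) ^ 3 := Nat.le_mul_of_pos_left _ hC
  refine ⟨Nat.find hex, ?_, ?_, Nat.find_spec hex⟩
  · by_contra hlt
    have h0 : Nat.find hex = 0 := by omega
    have := Nat.find_spec hex
    rw [h0] at this
    simp at this
    omega
  · rcases Nat.eq_zero_or_pos (Nat.find hex) with h0 | h0
    · rw [h0]; simp
    · have := Nat.find_min hex (m := Nat.find hex - 1) (by omega)
      rw [not_lt, Nat.sub_add_cancel h0] at this
      exact this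

lemma rpow_bound (n m : ℕ) (h : n < 192 * m ^ 3) : (n : ℝ) ^ (4 / 3 : ℝ) ≤ 1296 * (m : ℝ) ^ 4 := by
  have h1 : (n : ℝ) ≤ (6 * m : ℝ) ^ 3 := by
    have : (n : ℝ) < 192 * (m : ℝ) ^ 3 := by exact_mod_cast h
    have h0 : (0 : ℝ) ≤ (m : ℝ) ^ 3 := by positivity
    nlinarith
  calc (n : ℝ) ^ (4 / 3 : ℝ) ≤ ((6 * m : ℝ) ^ 3) ^ (4 / 3 : ℝ) :=
        Real.rpow_le_rpow (by positivity) h1 (by norm_num)
    _ = (6 * m : ℝ) ^ 4 := by
        rw [← Real.rpow_natCast, ← Real.rpow_mul (by positivity), ← Real.rpow_natCast]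
        norm_num
    _ = _ := by ring

theorem lower_explicit (n : ℕ) (hn : 3 ≤ n) : (n : ℝ) ^ (4 / 3 : ℝ) ≤ 1296 * (u n : ℝ) := by
  rcases lt_or_ge n 192 with h | h
  · have h1 : (n : ℝ) ^ (4 / 3 : ℝ) ≤ 1296 * ((1 : ℕ) : ℝ) ^ 4 := rpow_bound n 1 (by omega)
    have h2 : (1 : ℝ) ≤ u n := by exact_mod_cast one_le_u n hn
    norm_num at h1
    linarith
  · obtain ⟨t, ht, ht1, ht2⟩ := exists_t 192 n (by norm_num) h
    obtain ⟨P, hP, hcount⟩ := count (2 * t) (by omega) {(1, 1)} (by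
      intro s hs
      rw [Finset.mem_singleton] at hs
      subst hs
      exact ⟨by norm_num, by norm_num, ⟨t, by ring⟩⟩) (by
      intro s hs t ht _
      rw [Finset.mem_singleton] at hs ht
      rw [hs, ht])
    have hPn : P.card ≤ n := by rw [hP]; nlinarith
    have h3 := hcount.trans (le_u P n hPn)
    rw [Finset.sum_singleton] at h3
    have h4 : 2 * (2 * t) / (1 ^ 2 + 1 ^ 2) - 1 = 2 * t - 1 := by omega
    simp only at h3
    rw [h4] at h3
    have h5 : 2 * (2 * t) ^ 4 ≤ u n := by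
      refine le_trans ?_ h3
      have : t ≤ 2 * t - 1 := by omega
      calc 2 * (2 * t) ^ 4 = 4 * (2 * t) ^ 3 * t := by ring
        _ ≤ _ := Nat.mul_le_mul_left _ this
    have h6 : (n : ℝ) ^ (4 / 3 : ℝ) ≤ 1296 * ((2 * t : ℕ) : ℝ) ^ 4 := by
      apply rpow_bound
      refine lt_of_lt_of_le ht2 ?_
      apply Nat.mul_le_mul_left
      apply Nat.pow_le_pow_left
      omega
    have h7 : (2 : ℝ) * ((2 * t : ℕ) : ℝ) ^ 4 ≤ u n := by exact_mod_cast h5
    have h8 : (0 : ℝ) ≤ ((2 * t : ℕ) : ℝ) ^ 4 := by positivity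
    linarith


/-- coprime pairs of positive integers below `Z` -/
def Cop (Z : ℕ) : Finset (ℕ × ℕ) :=
  (Finset.Ico 1 Z ×ˢ Finset.Ico 1 Z).filter (fun s => Nat.Coprime s.1 s.2)

lemma Cop_inj (Z : ℕ) : ∀ s ∈ Cop Z, ∀ t ∈ Cop Z, s.1 * t.2 = t.1 * s.2 → s = t := by
  rintro ⟨a, b⟩ hs ⟨a', b'⟩ ht h
  simp only [Cop, Finset.mem_filter, Finset.mem_product, Finset.mem_Ico] at hs ht h
  obtain ⟨⟨⟨ha, -⟩, hb, -⟩, hc⟩ := hs
  obtain ⟨⟨⟨ha', -⟩, hb', -⟩, hc'⟩ := ht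
  have h1 : a ∣ a' := by
    apply Nat.Coprime.dvd_of_dvd_mul_right hc
    exact ⟨b', h.symm⟩
  have h2 : a' ∣ a := by
    apply Nat.Coprime.dvd_of_dvd_mul_right hc'
    exact ⟨b, h⟩
  have h3 : a = a' := Nat.dvd_antisymm h1 h2
  subst h3
  have h4 : b' = b := Nat.eq_of_mul_eq_mul_left (by omega) h
  rw [h4]

lemma Cop_dvd (Z : ℕ) : ∀ s ∈ Cop Z, 0 < s.1 ∧ 0 < s.2 ∧
    (s.1 ^ 2 + s.2 ^ 2) ∣ (2 * Z ^ 2).factorial := by
  rintro ⟨a, b⟩ hs
  simp only [Cop, Finset.mem_filter, Finset.mem_product, Finset.mem_Ico] at hs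
  obtain ⟨⟨⟨ha, haZ⟩, hb, hbZ⟩, -⟩ := hs
  refine ⟨by simp only; omega, by simp only; omega, ?_⟩
  apply Nat.dvd_factorial
  · positivity
  · have e1 : a ^ 2 ≤ Z ^ 2 := Nat.pow_le_pow_left haZ.le 2
    have e2 : b ^ 2 ≤ Z ^ 2 := Nat.pow_le_pow_left hbZ.le 2
    simp only
    omega

lemma log_le_sum (Z : ℕ) (hZ : 1 ≤ Z) : Real.log Z ≤ ∑ b ∈ Finset.Ico 1 Z, (1 : ℝ) / b := by
  induction Z, hZ using Nat.le_induction with
  | base => simp
  | succ n hn ih =>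
    rw [Finset.sum_Ico_succ_top hn]
    have hn0 : (0 : ℝ) < n := by exact_mod_cast hn
    have h1 : Real.log ((n + 1 : ℕ) : ℝ) = Real.log n + Real.log (((n : ℝ) + 1) / n) := by
      rw [← Real.log_mul hn0.ne' (by positivity)]
      congr 1
      push_cast
      field_simp
    have h2 : Real.log (((n : ℝ) + 1) / n) ≤ ((n : ℝ) + 1) / n - 1 :=
      Real.log_le_sub_one_of_pos (by positivity)
    have h3 : ((n : ℝ) + 1) / n - 1 = 1 / n := by field_simp; ring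
    rw [h1]
    linarith

lemma all_sum_ge (Z : ℕ) (hZ : 1 ≤ Z) : (1 / 2 : ℝ) * Real.log Z ≤
    ∑ s ∈ Finset.Ico 1 Z ×ˢ Finset.Ico 1 Z, (1 : ℝ) / ((s.1 : ℝ) ^ 2 + (s.2 : ℝ) ^ 2) := by
  rw [Finset.sum_product_right]
  refine le_trans (mul_le_mul_of_nonneg_left (log_le_sum Z hZ) (by norm_num)) ?_
  rw [Finset.mul_sum]
  apply Finset.sum_le_sum
  intro b hb
  rw [Finset.mem_Ico] at hb
  have hb0 : (0 : ℝ) < b := by exact_mod_cast hb.1
  have hsub : Finset.Ico 1 (b + 1) ⊆ Finset.Ico 1 Z := by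
    intro a ha
    rw [Finset.mem_Ico] at ha ⊢
    omega
  calc (1 / 2 : ℝ) * (1 / b) = ∑ a ∈ Finset.Ico 1 (b + 1), (1 : ℝ) / (2 * (b : ℝ) ^ 2) := by
        rw [Finset.sum_const, Nat.card_Ico, nsmul_eq_mul, Nat.add_sub_cancel]
        field_simp
    _ ≤ ∑ a ∈ Finset.Ico 1 (b + 1), (1 : ℝ) / ((a : ℝ) ^ 2 + (b : ℝ) ^ 2) := by
        apply Finset.sum_le_sum
        intro a ha
        rw [Finset.mem_Ico] at ha
        apply one_div_le_one_div_of_le
        · positivity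
        · have : (a : ℝ) ≤ b := by exact_mod_cast (by omega : a ≤ b)
          have h0 : (0 : ℝ) ≤ a := by positivity
          nlinarith
    _ ≤ _ := by
        apply Finset.sum_le_sum_of_subset_of_nonneg hsub
        intro a _ _
        positivity

lemma all_sum_le (Z : ℕ) :
    ∑ s ∈ Finset.Ico 1 Z ×ˢ Finset.Ico 1 Z, (1 : ℝ) / ((s.1 : ℝ) ^ 2 + (s.2 : ℝ) ^ 2) ≤
      2 * ∑ s ∈ Cop Z, (1 : ℝ) / ((s.1 : ℝ) ^ 2 + (s.2 : ℝ) ^ 2) := by
  classical
  set φ : ℕ × ℕ → ℕ × (ℕ × ℕ) :=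
    fun s => (Nat.gcd s.1 s.2, (s.1 / Nat.gcd s.1 s.2, s.2 / Nat.gcd s.1 s.2)) with hφ
  set F : ℕ × (ℕ × ℕ) → ℝ :=
    fun x => ((x.1 : ℝ) ^ 2)⁻¹ * ((1 : ℝ) / ((x.2.1 : ℝ) ^ 2 + (x.2.2 : ℝ) ^ 2)) with hF
  have hFφ : ∀ s ∈ Finset.Ico 1 Z ×ˢ Finset.Ico 1 Z,
      (1 : ℝ) / ((s.1 : ℝ) ^ 2 + (s.2 : ℝ) ^ 2) = F (φ s) := by
    rintro ⟨a, b⟩ hs
    rw [Finset.mem_product, Finset.mem_Ico, Finset.mem_Ico] at hs
    simp only at hs
    have hg : 0 < Nat.gcd a b := Nat.gcd_pos_of_pos_left b (by omega)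
    have e1 : a = Nat.gcd a b * (a / Nat.gcd a b) := (Nat.mul_div_cancel' (Nat.gcd_dvd_left a b)).symm
    have e2 : b = Nat.gcd a b * (b / Nat.gcd a b) := (Nat.mul_div_cancel' (Nat.gcd_dvd_right a b)).symm
    have e1R : (a : ℝ) = (Nat.gcd a b : ℝ) * ((a / Nat.gcd a b : ℕ) : ℝ) := by exact_mod_cast e1
    have e2R : (b : ℝ) = (Nat.gcd a b : ℝ) * ((b / Nat.gcd a b : ℕ) : ℝ) := by exact_mod_cast e2
    simp only [hF, hφ]
    have hgR : (0 : ℝ) < (Nat.gcd a b : ℝ) := by exact_mod_cast hg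
    have haR : (0 : ℝ) < a := by exact_mod_cast hs.1.1
    have ha' : (0 : ℝ) < ((a / Nat.gcd a b : ℕ) : ℝ) := by
      by_contra hcon
      have : ((a / Nat.gcd a b : ℕ) : ℝ) = 0 := le_antisymm (not_lt.mp hcon) (by positivity)
      rw [this, mul_zero] at e1R
      linarith
    have : (a : ℝ) ^ 2 + (b : ℝ) ^ 2 = (Nat.gcd a b : ℝ) ^ 2 *
        (((a / Nat.gcd a b : ℕ) : ℝ) ^ 2 + ((b / Nat.gcd a b : ℕ) : ℝ) ^ 2) := by
      calc (a : ℝ) ^ 2 + (b : ℝ) ^ 2 = ((Nat.gcd a b : ℝ) * ((a / Nat.gcd a b : ℕ) : ℝ)) ^ 2 +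
            ((Nat.gcd a b : ℝ) * ((b / Nat.gcd a b : ℕ) : ℝ)) ^ 2 := by rw [← e1R, ← e2R]
        _ = _ := by ring
    rw [this, one_div, mul_inv, one_div]
  have hinj : Set.InjOn φ (Finset.Ico 1 Z ×ˢ Finset.Ico 1 Z : Finset (ℕ × ℕ)) := by
    rintro ⟨a, b⟩ _ ⟨a', b'⟩ _ h
    simp only [hφ, Prod.mk.injEq] at h
    obtain ⟨h1, h2, h3⟩ := h
    have e1 : a = Nat.gcd a b * (a / Nat.gcd a b) := (Nat.mul_div_cancel' (Nat.gcd_dvd_left a b)).symm
    have e2 : b = Nat.gcd a b * (b / Nat.gcd a b) := (Nat.mul_div_cancel' (Nat.gcd_dvd_right a b)).symm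
    have e1' : a' = Nat.gcd a' b' * (a' / Nat.gcd a' b') :=
      (Nat.mul_div_cancel' (Nat.gcd_dvd_left a' b')).symm
    have e2' : b' = Nat.gcd a' b' * (b' / Nat.gcd a' b') :=
      (Nat.mul_div_cancel' (Nat.gcd_dvd_right a' b')).symm
    have f1 : a = a' := by rw [e1, e1', h2, h1]
    have f2 : b = b' := by rw [e2, e2', h3, h1]
    rw [f1, f2]
  rw [Finset.sum_congr rfl hFφ, ← Finset.sum_image (g := φ) (f := F) hinj]
  have hsub : (Finset.Ico 1 Z ×ˢ Finset.Ico 1 Z).image φ ⊆ Finset.Ioo 0 Z ×ˢ Cop Z := by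
    intro x hx
    rw [Finset.mem_image] at hx
    obtain ⟨⟨a, b⟩, hs, rfl⟩ := hx
    rw [Finset.mem_product, Finset.mem_Ico, Finset.mem_Ico] at hs
    simp only at hs
    obtain ⟨⟨ha, haZ⟩, hb, hbZ⟩ := hs
    have hg : 0 < Nat.gcd a b := Nat.gcd_pos_of_pos_left b (by omega)
    have hga : Nat.gcd a b ≤ a := Nat.le_of_dvd (by omega) (Nat.gcd_dvd_left a b)
    have hgb : Nat.gcd a b ≤ b := Nat.le_of_dvd (by omega) (Nat.gcd_dvd_right a b)
    simp only [hφ, Finset.mem_product, Finset.mem_Ioo, Cop, Finset.mem_filter, Finset.mem_Ico]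
    refine ⟨⟨hg, by omega⟩, ⟨⟨Nat.div_pos hga hg, ?_⟩, Nat.div_pos hgb hg, ?_⟩, ?_⟩
    · exact lt_of_le_of_lt (Nat.div_le_self _ _) haZ
    · exact lt_of_le_of_lt (Nat.div_le_self _ _) hbZ
    · exact Nat.coprime_div_gcd_div_gcd hg
  calc ∑ x ∈ (Finset.Ico 1 Z ×ˢ Finset.Ico 1 Z).image φ, F x
      ≤ ∑ x ∈ Finset.Ioo 0 Z ×ˢ Cop Z, F x := by
        apply Finset.sum_le_sum_of_subset_of_nonneg hsub
        intro x _ _
        simp only [hF]
        positivity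
    _ = (∑ g ∈ Finset.Ioo 0 Z, ((g : ℝ) ^ 2)⁻¹) *
          ∑ s ∈ Cop Z, (1 : ℝ) / ((s.1 : ℝ) ^ 2 + (s.2 : ℝ) ^ 2) := by
        rw [Finset.sum_product, Finset.sum_mul_sum]
    _ ≤ _ := by
        apply mul_le_mul_of_nonneg_right
        · have := sum_Ioo_inv_sq_le (α := ℝ) 0 Z
          norm_num at this ⊢
          exact this
        · apply Finset.sum_nonneg
          intro s _
          positivity

lemma count_real (m : ℕ) (hm : 0 < m) (S : Finset (ℕ × ℕ))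
    (hS : ∀ s ∈ S, 0 < s.1 ∧ 0 < s.2 ∧ (s.1 ^ 2 + s.2 ^ 2) ∣ m)
    (hinj : ∀ s ∈ S, ∀ t ∈ S, s.1 * t.2 = t.1 * s.2 → s = t) (n : ℕ) (hn : 24 * m ^ 3 ≤ n) :
    4 * (m : ℝ) ^ 4 * ∑ s ∈ S, (1 : ℝ) / ((s.1 : ℝ) ^ 2 + (s.2 : ℝ) ^ 2) ≤ (u n : ℝ) := by
  obtain ⟨P, hP, hcount⟩ := count m hm S hS hinj
  have h1 := hcount.trans (le_u P n (by rw [hP]; exact hn))
  have h2 : ((4 * m ^ 3 * ∑ s ∈ S, (2 * m / (s.1 ^ 2 + s.2 ^ 2) - 1) : ℕ) : ℝ) ≤ u n := by
    exact_mod_cast h1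
  refine le_trans ?_ h2
  rw [Nat.cast_mul, Nat.cast_sum]
  have : 4 * (m : ℝ) ^ 4 * ∑ s ∈ S, (1 : ℝ) / ((s.1 : ℝ) ^ 2 + (s.2 : ℝ) ^ 2)
      = ((4 * m ^ 3 : ℕ) : ℝ) * ∑ s ∈ S, (m : ℝ) / ((s.1 : ℝ) ^ 2 + (s.2 : ℝ) ^ 2) := by
    push_cast
    rw [Finset.mul_sum, Finset.mul_sum]
    apply Finset.sum_congr rfl
    intro s _
    ring
  rw [this]
  apply mul_le_mul_of_nonneg_left _ (by positivity)
  apply Finset.sum_le_sum
  intro s hs
  obtain ⟨h1, h2, c, hc⟩ := hS s hs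
  have hq : 0 < s.1 ^ 2 + s.2 ^ 2 := by positivity
  have hc0 : 0 < c := by
    rcases Nat.eq_zero_or_pos c with h | h
    · subst h; simp at hc; omega
    · exact h
  have e1 : 2 * m / (s.1 ^ 2 + s.2 ^ 2) = 2 * c := by
    rw [hc, show 2 * ((s.1 ^ 2 + s.2 ^ 2) * c) = (s.1 ^ 2 + s.2 ^ 2) * (2 * c) by ring]
    exact Nat.mul_div_cancel_left _ hq
  rw [e1]
  have e2 : (m : ℝ) / ((s.1 : ℝ) ^ 2 + (s.2 : ℝ) ^ 2) = c := by
    have hqR : ((s.1 : ℝ) ^ 2 + (s.2 : ℝ) ^ 2) ≠ 0 := by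
      have : (0 : ℝ) < ((s.1 ^ 2 + s.2 ^ 2 : ℕ) : ℝ) := by exact_mod_cast hq
      push_cast at this
      exact this.ne'
    rw [div_eq_iff hqR]
    have : (m : ℝ) = (((s.1 ^ 2 + s.2 ^ 2) * c : ℕ) : ℝ) := by exact_mod_cast hc
    rw [this]; push_cast; ring
  rw [e2]
  have : c ≤ 2 * c - 1 := by omega
  exact_mod_cast this


lemma fact_bound (Z : ℕ) (hZ : 1 ≤ Z) :
    ((24 * ((2 * Z ^ 2).factorial) ^ 3 : ℕ) : ℝ) ≤ Real.exp (16 * (Z : ℝ) ^ 4) := by
  set N := 2 * Z ^ 2 with hN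
  have hNR : (N : ℝ) = 2 * (Z : ℝ) ^ 2 := by rw [hN]; push_cast; ring
  have h1 : ((N.factorial : ℕ) : ℝ) ≤ Real.exp (4 * (Z : ℝ) ^ 4) := by
    calc ((N.factorial : ℕ) : ℝ) ≤ ((N ^ N : ℕ) : ℝ) := by exact_mod_cast Nat.factorial_le_pow N
      _ = (N : ℝ) ^ N := by push_cast; rfl
      _ ≤ (Real.exp N) ^ N := by
          apply pow_le_pow_left₀ (by positivity)
          have := Real.add_one_le_exp (N : ℝ)
          linarith
      _ = Real.exp (4 * (Z : ℝ) ^ 4) := by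
          rw [← Real.exp_nat_mul, hNR]
          congr 1
          ring
  have h24 : (24 : ℝ) ≤ Real.exp (4 * (Z : ℝ) ^ 4) := by
    have hZ4 : (1 : ℝ) ≤ (Z : ℝ) ^ 4 := by
      have : (1 : ℝ) ≤ Z := by exact_mod_cast hZ
      exact one_le_pow₀ this
    calc (24 : ℝ) ≤ (2.7 : ℝ) ^ 4 := by norm_num
      _ ≤ (Real.exp 1) ^ 4 := by
          apply pow_le_pow_left₀ (by norm_num)
          have := Real.exp_one_gt_d9
          linarith
      _ = Real.exp 4 := by rw [← Real.exp_nat_mul]; norm_num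
      _ ≤ _ := Real.exp_le_exp.mpr (by linarith)
  push_cast
  calc (24 : ℝ) * (N.factorial : ℝ) ^ 3
      ≤ Real.exp (4 * (Z : ℝ) ^ 4) * (Real.exp (4 * (Z : ℝ) ^ 4)) ^ 3 := by
        apply mul_le_mul h24 _ (by positivity) (by positivity)
        exact pow_le_pow_left₀ (by positivity) h1 3
    _ = Real.exp (16 * (Z : ℝ) ^ 4) := by
        rw [← Real.exp_nat_mul, ← Real.exp_add]
        congr 1
        push_cast
        ring

theorem lower_loglog (n : ℕ) (hn : 3 ≤ n) :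
    (n : ℝ) ^ (4 / 3 : ℝ) * Real.log (Real.log n) ≤ 15552 * (u n : ℝ) := by
  have hn0 : (0 : ℝ) < (n : ℝ) ^ (4 / 3 : ℝ) := by
    apply Real.rpow_pos_of_pos
    exact_mod_cast (by omega : 0 < n)
  have hbase := lower_explicit n hn
  have hu0 : (0 : ℝ) ≤ u n := by positivity
  rcases le_or_gt (Real.log (Real.log n)) 12 with hx | hx
  · calc (n : ℝ) ^ (4 / 3 : ℝ) * Real.log (Real.log n) ≤ (n : ℝ) ^ (4 / 3 : ℝ) * 12 :=
          mul_le_mul_of_nonneg_left hx hn0.le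
      _ ≤ _ := by linarith
  · set x := Real.log (Real.log n) with hxdef
    set y := Real.exp (x / 4) with hy
    have hlogn : 0 < Real.log n := by
      apply Real.log_pos
      exact_mod_cast (by omega : 1 < n)
    have hy4 : y ^ 4 = Real.log n := by
      rw [hy, ← Real.exp_nat_mul]
      have : ((4 : ℕ) : ℝ) * (x / 4) = x := by push_cast; ring
      rw [this, hxdef, Real.exp_log hlogn]
    have hy4' : 4 ≤ y := by
      have := Real.add_one_le_exp (x / 4)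
      linarith
    set Z := ⌊y / 2⌋₊ with hZdef
    have hZle : (Z : ℝ) ≤ y / 2 := Nat.floor_le (by positivity)
    have hZgt : y / 2 < Z + 1 := Nat.lt_floor_add_one _
    have hZ4 : y / 4 ≤ Z := by linarith
    have hZ1 : 1 ≤ Z := by
      have : (1 : ℝ) ≤ Z := by linarith
      exact_mod_cast this
    set Q := (2 * Z ^ 2).factorial with hQ
    have hQ0 : 0 < Q := Nat.factorial_pos _
    have hQn : 24 * Q ^ 3 ≤ n := by
      have h1 := fact_bound Z hZ1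
      have h2 : 16 * (Z : ℝ) ^ 4 ≤ Real.log n := by
        rw [← hy4]
        have : (Z : ℝ) ^ 4 ≤ (y / 2) ^ 4 := pow_le_pow_left₀ (by positivity) hZle 4
        calc 16 * (Z : ℝ) ^ 4 ≤ 16 * (y / 2) ^ 4 := by linarith
          _ = y ^ 4 := by ring
      have h3 : Real.exp (16 * (Z : ℝ) ^ 4) ≤ n := by
        calc _ ≤ Real.exp (Real.log n) := Real.exp_le_exp.mpr h2
          _ = n := Real.exp_log (by exact_mod_cast (by omega : 0 < n))
      exact_mod_cast h1.trans h3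
    obtain ⟨t, ht, ht1, ht2⟩ := exists_t (24 * Q ^ 3) n (by positivity) hQn
    have hm : 0 < Q * t := by positivity
    have h1 := count_real (Q * t) hm (Cop Z) (by
      intro s hs
      obtain ⟨e1, e2, e3⟩ := Cop_dvd Z s hs
      exact ⟨e1, e2, e3.trans (Dvd.intro t rfl)⟩) (Cop_inj Z) n (by
        refine le_trans (le_of_eq ?_) ht1
        ring)
    have h2 : (1 / 4 : ℝ) * Real.log Z ≤
        ∑ s ∈ Cop Z, (1 : ℝ) / ((s.1 : ℝ) ^ 2 + (s.2 : ℝ) ^ 2) := by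
      have := all_sum_ge Z hZ1
      have := all_sum_le Z
      linarith
    have h3 : (n : ℝ) ^ (4 / 3 : ℝ) ≤ 1296 * ((Q * t : ℕ) : ℝ) ^ 4 := by
      apply rpow_bound
      refine lt_of_lt_of_le ht2 ?_
      calc 24 * Q ^ 3 * (t + 1) ^ 3 ≤ 24 * Q ^ 3 * (2 * t) ^ 3 := by
            apply Nat.mul_le_mul_left
            apply Nat.pow_le_pow_left
            omega
        _ = _ := by ring
    have hm4 : (0 : ℝ) < ((Q * t : ℕ) : ℝ) ^ 4 := by
      have : (0 : ℝ) < ((Q * t : ℕ) : ℝ) := by exact_mod_cast hm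
      positivity
    have h4 : ((Q * t : ℕ) : ℝ) ^ 4 * Real.log Z ≤ u n := by
      refine le_trans ?_ h1
      have := mul_le_mul_of_nonneg_left h2 (by positivity : (0 : ℝ) ≤ 4 * ((Q * t : ℕ) : ℝ) ^ 4)
      refine le_trans (le_of_eq ?_) this
      ring
    have h5 : x / 8 ≤ Real.log Z := by
      have hlog4 : Real.log 4 ≤ 1.5 := by
        have : Real.log 4 = 2 * Real.log 2 := by
          rw [show (4 : ℝ) = 2 ^ 2 by norm_num, Real.log_pow]; norm_num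
        have := Real.log_two_lt_d9
        linarith
      have h6 : Real.log (y / 4) ≤ Real.log Z := Real.log_le_log (by positivity) hZ4
      have h7 : Real.log (y / 4) = x / 4 - Real.log 4 := by
        rw [Real.log_div (by positivity) (by norm_num), hy, Real.log_exp]
      linarith
    calc (n : ℝ) ^ (4 / 3 : ℝ) * x ≤ (1296 * ((Q * t : ℕ) : ℝ) ^ 4) * x :=
          mul_le_mul_of_nonneg_right h3 (by linarith)
      _ = 10368 * (((Q * t : ℕ) : ℝ) ^ 4 * (x / 8)) := by ring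
      _ ≤ 10368 * (((Q * t : ℕ) : ℝ) ^ 4 * Real.log Z) := by
          apply mul_le_mul_of_nonneg_left _ (by norm_num)
          exact mul_le_mul_of_nonneg_left h5 hm4.le
      _ ≤ 10368 * u n := by linarith
      _ ≤ _ := by linarith

/-- `u(n) ≥ n^(4/3)/1296` and `u(n) ≥ n^(4/3) log log n / 15552` for all `n ≥ 3`. -/
theorem result :
    (∀ n : ℕ, 3 ≤ n → (n : ℝ) ^ (4 / 3 : ℝ) ≤ 1296 * (u n : ℝ)) ∧
    (∀ n : ℕ, 3 ≤ n →
      (n : ℝ) ^ (4 / 3 : ℝ) * Real.log (Real.log n) ≤ 15552 * (u n : ℝ)) :=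
  ⟨lower_explicit, lower_loglog⟩

end Pool.Agent.Results.MP_75315a_co.FourThirds
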